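import Pool.Agent.K1H49.PL.Gen

/-! PLG-SML: there are few positive formulas (helper87). -/

set_option autoImplicit false

namespace Pool.Agent.K1H87.PLG

open FirstOrder Pool.Agent.K1H49.PL

universe u

/-- positive formulas are first-order formulas -/
theorem pf_bounded {L : FirstOrder.Language.{0, 0}} (M : Type u) [L.Structure M] {α : Type}
    {β : Type} (φ : PF L β) : ∀ (n : ℕ) (f : β → α ⊕ Fin n), ∃ φ' : L.BoundedFormula α n,
      ∀ (v : α → M) (w : Fin n → M), φ'.Realize v w ↔ φ.Realize (Sum.elim v w ∘ f) := by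
  induction φ with
  | eq t s =>
    intro n f
    refine ⟨(t.relabel f).bdEqual (s.relabel f), fun v w => ?_⟩
    rw [Language.BoundedFormula.realize_bdEqual, Language.Term.realize_relabel,
      Language.Term.realize_relabel]
    rfl
  | rel R ts =>
    intro n f
    refine ⟨R.boundedFormula (fun i => (ts i).relabel f), fun v w => ?_⟩
    rw [Language.BoundedFormula.realize_rel]
    simp only [Language.Term.realize_relabel]
    rfl
  | top =>
    intro n f
    exact ⟨⊤, fun v w => by simp [PF.Realize]⟩
  | bot =>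
    intro n f
    exact ⟨⊥, fun v w => by simp [PF.Realize]⟩
  | and φ ψ ih1 ih2 =>
    intro n f
    obtain ⟨a, ha⟩ := ih1 n f
    obtain ⟨b, hb⟩ := ih2 n f
    refine ⟨a ⊓ b, fun v w => ?_⟩
    rw [Language.BoundedFormula.realize_inf, ha, hb]
    rfl
  | or φ ψ ih1 ih2 =>
    intro n f
    obtain ⟨a, ha⟩ := ih1 n f
    obtain ⟨b, hb⟩ := ih2 n f
    refine ⟨a ⊔ b, fun v w => ?_⟩
    rw [Language.BoundedFormula.realize_sup, ha, hb]
    rfl
  | ex φ ih =>
    intro n f
    obtain ⟨a, ha⟩ := ih (n + 1) (fun o => o.elim (Sum.inr (Fin.last n))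
      (fun b => (f b).map id Fin.castSucc))
    refine ⟨a.ex, fun v w => ?_⟩
    rw [Language.BoundedFormula.realize_ex]
    change _ ↔ ∃ x : M, φ.Realize (fun o => o.elim x (Sum.elim v w ∘ f))
    refine exists_congr fun x => ?_
    rw [ha]
    have h : (Sum.elim v (Fin.snoc w x) ∘ fun o => Option.elim o (Sum.inr (Fin.last n))
        (fun b => (f b).map id Fin.castSucc) : _ → M) =
        fun o => Option.elim o x (Sum.elim v w ∘ f) := by
      funext o
      rcases o with _ | b
      · simp [Fin.snoc_last]
      · rcases hb : f b with c | i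
        · simp [hb]
        · simp [hb, Fin.snoc_castSucc]
    rw [h]

theorem t_SML : S_SML.{u} := by
  intro L M _ α
  have key : ∀ S : {S : Set (α → M) // ∃ φ : PF L α, S = {v | φ.Realize v}},
      ∃ φ' : L.BoundedFormula α 0, S.1 = {v | φ'.Realize v default} := by
    rintro ⟨S, φ, rfl⟩
    obtain ⟨φ', h⟩ := pf_bounded (α := α) M φ 0 Sum.inl
    refine ⟨φ', ?_⟩
    ext v
    simp only [Set.mem_setOf_eq]
    rw [h]
    rfl
  choose F hF using key
  have hinj : Function.Injective F := by
    intro S S' h
    apply Subtype.ext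
    rw [hF S, hF S', h]
  exact small_of_injective hinj

end Pool.Agent.K1H87.PLG
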